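import Pool.Agent.DPS.Stmts

/-! The tangent quadratic majorant of `x ^ p` on `[0,1]` for real `p ≥ 2`. -/

namespace Pool.Agent.DPS.H19

open Set

theorem der_ineq {p r C u v w : ℝ} (hp : 2 ≤ p) (hu : 0 ≤ u) (huv : u < v) (hvw : v < w) :
    (w - u) * (p * v ^ (p - 1) - (p * r ^ (p - 1) + 2 * C * (v - r))) ≤
      (w - v) * (p * u ^ (p - 1) - (p * r ^ (p - 1) + 2 * C * (u - r))) +
      (v - u) * (p * w ^ (p - 1) - (p * r ^ (p - 1) + 2 * C * (w - r))) := by
  have hc0 : ConvexOn ℝ (Set.Ici (0 : ℝ)) fun y : ℝ => y ^ (p - 1) :=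
    convexOn_rpow (by linarith)
  have hw0 : (w : ℝ) ∈ Set.Ici (0 : ℝ) := by
    show (0 : ℝ) ≤ w
    linarith
  have hu0 : (u : ℝ) ∈ Set.Ici (0 : ℝ) := hu
  have ha0 : 0 ≤ (w - v) / (w - u) := by apply div_nonneg <;> linarith
  have hb0 : 0 ≤ (v - u) / (w - u) := by apply div_nonneg <;> linarith
  have hab : (w - v) / (w - u) + (v - u) / (w - u) = 1 := by
    rw [← add_div, div_eq_one_iff_eq (by linarith)]
    ring
  have hc := hc0.2 hu0 hw0 ha0 hb0 hab
  have hne : w - u ≠ 0 := by
    intro h
    linarith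
  have e1 : ((w - v) / (w - u)) • u + ((v - u) / (w - u)) • w = v := by
    simp only [smul_eq_mul]
    field_simp
    ring
  rw [e1] at hc
  simp only [smul_eq_mul] at hc
  have h2 : (w - u) * v ^ (p - 1) ≤ (w - v) * u ^ (p - 1) + (v - u) * w ^ (p - 1) := by
    have h3 := mul_le_mul_of_nonneg_left hc (show (0 : ℝ) ≤ w - u by linarith)
    have h4 : (w - u) * ((w - v) / (w - u) * u ^ (p - 1) + (v - u) / (w - u) * w ^ (p - 1))
        = (w - v) * u ^ (p - 1) + (v - u) * w ^ (p - 1) := by
      field_simp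
    linarith [h3, h4]
  have h5 := mul_le_mul_of_nonneg_left h2 (show (0 : ℝ) ≤ p by linarith)
  nlinarith [h5]

theorem qmj : QMJStmt := by
  intro p r x hp hr0 hr1 hx0 hx1
  set C : ℝ := (1 - r ^ p - p * r ^ (p - 1) * (1 - r)) / (1 - r) ^ 2 with hC
  set f : ℝ → ℝ := fun y => y ^ p - (r ^ p + p * r ^ (p - 1) * (y - r) + C * (y - r) ^ 2) with hf
  set d : ℝ → ℝ := fun y => p * y ^ (p - 1) - (p * r ^ (p - 1) + 2 * C * (y - r)) with hd
  have hder : ∀ y : ℝ, HasDerivAt f (d y) y := by
    intro y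
    have h1 : HasDerivAt (fun y : ℝ => y ^ p) (p * y ^ (p - 1)) y :=
      Real.hasDerivAt_rpow_const (Or.inr (by linarith))
    have h2 : HasDerivAt (fun y : ℝ => y - r) 1 y := (hasDerivAt_id y).sub_const r
    have h3 : HasDerivAt (fun y : ℝ => p * r ^ (p - 1) * (y - r)) (p * r ^ (p - 1) * 1) y :=
      h2.const_mul _
    have h4 : HasDerivAt (fun y : ℝ => C * (y - r) ^ 2) (C * (2 * (y - r) ^ 1 * 1)) y := by
      have := (h2.pow 2).const_mul C
      simpa using this
    have h5 := h1.sub ((h3.const_add (r ^ p)).add h4)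
    have e : p * y ^ (p - 1) - (p * r ^ (p - 1) * 1 + C * (2 * (y - r) ^ 1 * 1)) = d y := by
      simp only [hd]
      ring
    rw [e] at h5
    exact h5
  have hcont : Continuous f := by
    rw [continuous_iff_continuousAt]
    exact fun y => (hder y).continuousAt
  have hfr : f r = 0 := by
    simp only [hf]
    ring
  have h1r : (1 - r) ≠ 0 := by
    intro h
    linarith
  have hf1 : f 1 = 0 := by
    simp only [hf, Real.one_rpow]
    have : C * (1 - r) ^ 2 = 1 - r ^ p - p * r ^ (p - 1) * (1 - r) := by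
      rw [hC]
      field_simp
    linarith
  have hdr : d r = 0 := by
    simp only [hd]
    ring
  by_contra hneg
  have hpos : 0 < f x := by
    simp only [hf]
    linarith [not_le.mp hneg]
  rcases lt_trichotomy x r with hxr | hxr | hxr
  · -- x < r
    obtain ⟨a, ha, hae⟩ := exists_hasDerivAt_eq_slope f d hxr hcont.continuousOn
      (fun y _ => hder y)
    obtain ⟨b, hb, hbe⟩ := exists_hasDerivAt_eq_slope f d hr1 hcont.continuousOn
      (fun y _ => hder y)
    rw [hfr, hf1, sub_zero, zero_div] at hbe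
    have hda : d a < 0 := by
      rw [hae, hfr]
      apply div_neg_of_neg_of_pos <;> linarith
    have key := der_ineq (p := p) (r := r) (C := C) (u := a) (v := r) (w := b) hp
      (by linarith [ha.1]) ha.2 hb.1
    have key2 : (b - a) * d r ≤ (b - r) * d a + (r - a) * d b := key
    rw [hdr, hbe] at key2
    have : (b - r) * d a < 0 := mul_neg_of_pos_of_neg (by linarith [hb.1]) hda
    linarith
  · rw [hxr, hfr] at hpos
    exact lt_irrefl _ hpos
  · -- r < x
    have hx1' : x < 1 := by
      rcases lt_or_eq_of_le hx1 with h | h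
      · exact h
      · rw [h, hf1] at hpos
        exact absurd hpos (lt_irrefl _)
    obtain ⟨a, ha, hae⟩ := exists_hasDerivAt_eq_slope f d hxr hcont.continuousOn
      (fun y _ => hder y)
    obtain ⟨b, hb, hbe⟩ := exists_hasDerivAt_eq_slope f d hx1' hcont.continuousOn
      (fun y _ => hder y)
    have hda : 0 < d a := by
      rw [hae, hfr]
      apply div_pos <;> linarith
    have hdb : d b < 0 := by
      rw [hbe, hf1]
      apply div_neg_of_neg_of_pos <;> linarith
    have key := der_ineq (p := p) (r := r) (C := C) (u := r) (v := a) (w := b) hp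
      hr0.le ha.1 (by linarith [ha.2, hb.1])
    have key2 : (b - r) * d a ≤ (b - a) * d r + (a - r) * d b := key
    rw [hdr] at key2
    have h1 : 0 < (b - r) * d a := mul_pos (by linarith [hb.1]) hda
    have h2 : (a - r) * d b < 0 := mul_neg_of_pos_of_neg (by linarith [ha.1]) hdb
    linarith

end Pool.Agent.DPS.H19
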